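import Mathlib
import Pool.Agent.Q307.RD.Const
import Pool.Agent.Q307.RD.Fin

/-!
# The `1/2`-reaping number equals the `(0,1)`-reaping number

Let `R` be an infinite family of fewer than `r_{(0,1)}` infinite sets. For two members `B`, `B'`
let `Q` be the union of alternating very long blocks of `B` and `B'`. If `S` has a relative density
in `B`, `B'` and `Q`, then these densities are equal. Hence (adding all the sets `Q` to the family)
some `S` has a constant relative density `ρ ∈ (0,1)` in all members of `R`. By taking a countable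
union of families one sees that `ρ` can be found in an interval `[ε, 1 - ε]` which is the same for
all families of this size. Now a set of density exactly `1/2` in all members of `R` is built in
countably many steps: at each step there is a part `T` which is decided and a part `W` which is
undecided, with constant densities `u` and `m` such that `u ≤ 1/2 ≤ u + m`; a set `S` with constant
density in all `B ∩ W` divides `W`, and one of the two pieces becomes the new undecided part. So `m`
tends to `0`.
-/

set_option autoImplicit false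

namespace Pool.Agent.Results.MP_5d23e6_lc.HalfEqInterval

open Cardinal Set Pool.Agent.Q307.RD

/-- For each nonempty set `X` contained in the open interval `(0,1)`, the `X`-reaping number is
equal to the `(0,1)`-reaping number; in particular `r_{1/2} = r_{(0,1)}`. -/
theorem result : reapingNumber {1 / 2} = reapingNumber (Ioo 0 1) ∧
    ∀ X : Set ℝ, X.Nonempty → X ⊆ Ioo 0 1 → reapingNumber X = reapingNumber (Ioo 0 1) := by
  have main : ∀ X : Set ℝ, X.Nonempty → X ⊆ Ioo 0 1 →
      reapingNumber X = reapingNumber (Ioo 0 1) := by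
    intro X hX hX1
    have hne : {c | ∃ R : Set (Set ℕ), (∀ B ∈ R, B.Infinite) ∧
        (∀ S : Set ℕ, S.Infinite → Sᶜ.Infinite → ∃ B ∈ R, ¬ ∃ ρ ∈ Ioo (0 : ℝ) 1,
          HasDensity B S ρ) ∧ #R = c}.Nonempty := by
      refine ⟨_, {B | B.Infinite}, fun B hB => hB, fun S hS _ => ⟨S, hS, ?_⟩, rfl⟩
      rintro ⟨ρ, hρ, hd⟩
      have := hd.unique (hasDensity_self hS)
      exact absurd hρ.2 (by rw [this]; exact lt_irrefl 1)
    have hneX : {c | ∃ R : Set (Set ℕ), (∀ B ∈ R, B.Infinite) ∧
        (∀ S : Set ℕ, S.Infinite → Sᶜ.Infinite → ∃ B ∈ R, ¬ ∃ ρ ∈ X,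
          HasDensity B S ρ) ∧ #R = c}.Nonempty := by
      refine ⟨_, {B | B.Infinite}, fun B hB => hB, fun S hS _ => ⟨S, hS, ?_⟩, rfl⟩
      rintro ⟨ρ, hρ, hd⟩
      have := hd.unique (hasDensity_self hS)
      exact absurd (hX1 hρ).2 (by rw [this]; exact lt_irrefl 1)
    apply le_antisymm
    · refine le_csInf hne ?_
      rintro c ⟨R, hR, hS, rfl⟩
      refine csInf_le' ⟨R, hR, fun S h1 h2 => ?_, rfl⟩
      obtain ⟨B, hB, hBS⟩ := hS S h1 h2
      exact ⟨B, hB, fun ⟨ρ, hρ, hd⟩ => hBS ⟨ρ, hX1 hρ, hd⟩⟩
    · refine le_csInf hneX ?_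
      rintro c ⟨R, hR, hS, rfl⟩
      by_contra hlt
      push Not at hlt
      obtain ⟨τ, hτ⟩ := hX
      have hτ1 := hX1 hτ
      have hτ2 : τ ∈ Icc (0 : ℝ) 1 := Ioo_subset_Icc_self hτ1
      obtain ⟨T, hT, hT1, hT2⟩ : ∃ T : Set ℕ, (∀ B ∈ R, HasDensity B T τ) ∧ T.Infinite ∧
          Tᶜ.Infinite := by
        have key : ∃ T : Set ℕ, ∀ B ∈ insert Set.univ R, HasDensity B T τ := by
          have hR' : ∀ B ∈ insert Set.univ R, B.Infinite := by
            rintro B (rfl | hB)
            · exact infinite_univ
            · exact hR B hB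
          rcases R.finite_or_infinite with hfin | hinf
          · exact exists_of_finite (hfin.insert _) hR' hτ2
          · have h0 : ℵ₀ ≤ #R := infinite_iff.mp hinf.to_subtype
            refine (good_of_lt hlt).exact h0 hτ2 (insert Set.univ R) hR' ?_
            refine mk_insert_le.trans ?_
            rw [add_one_eq h0]
        obtain ⟨T, hT⟩ := key
        have hU := hT Set.univ (mem_insert _ _)
        refine ⟨T, fun B hB => hT B (mem_insert_of_mem _ hB), ?_, ?_⟩
        · have := inter_infinite infinite_univ hU hτ1.1.ne'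
          rwa [univ_inter] at this
        · have h1 : HasDensity Set.univ (Set.univ \ T) (1 - τ) :=
            (hasDensity_univ infinite_univ).diff (by rw [univ_inter]; exact hU)
          have := inter_infinite infinite_univ h1 (by linarith [hτ1.2])
          rwa [univ_inter, ← compl_eq_univ_sdiff] at this
      obtain ⟨B, hB, hBT⟩ := hS T hT1 hT2
      exact hBT ⟨τ, hτ, hT B hB⟩
  exact ⟨main _ (singleton_nonempty _) (by
    rw [singleton_subset_iff]; exact ⟨by norm_num, by norm_num⟩), main⟩

end Pool.Agent.Results.MP_5d23e6_lc.HalfEqInterval
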